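import Pool.Agent.Helper34.FF.Goals1

/-!
# Bonds are the sets whose boundary is a minimal nonempty even set
-/

namespace Pool.Agent.Helper90.FF

open Finset Pool.Agent.Helper34.FF
open scoped symmDiff Classical

theorem bdry_empty {V F : Type} [Fintype V] [Fintype F] (T : Tri V F) : T.bdry ∅ = ∅ := by
  simp [Tri.bdry]

theorem bdry_univ (h1 : StmtAlg) {V F : Type} [Fintype V] [Fintype F] (T : Tri V F) :
    T.bdry univ = ∅ := by
  have h := (h1 V F T).2.1 ∅
  rw [compl_empty] at h
  rw [h, bdry_empty]

theorem dc_of_min (h1 : StmtAlg) {V F : Type} [Fintype V] [Fintype F] (T : Tri V F)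
    (hT : T.Sphere) (S : Finset F) (hne : (T.bdry S).Nonempty)
    (hmin : ∀ Z ⊆ T.bdry S, EvenSet Z → Z = ∅ ∨ Z = T.bdry S) : T.DC S := by
  refine ⟨?_, ?_⟩
  · rw [Finset.nonempty_iff_ne_empty]
    rintro rfl
    rw [bdry_empty] at hne
    exact Finset.not_nonempty_empty hne
  · intro X hX hXS
    rcases hmin _ hXS ((h1 V F T).2.2.1 X) with h | h
    · rcases hT.dual X h with h2 | h2
      · exact Or.inl h2
      · right
        rw [h2] at hX ⊢
        exact (Finset.univ_subset_iff.1 hX).symm
    · have h3 : T.bdry (X ∆ S) = ∅ := by
        rw [(h1 V F T).1, h, symmDiff_self]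
        rfl
      rcases hT.dual _ h3 with h2 | h2
      · right
        exact symmDiff_eq_bot.1 h2
      · left
        rw [Finset.eq_empty_iff_forall_notMem]
        intro f hf
        have h4 : f ∈ X ∆ S := by rw [h2]; exact mem_univ f
        rw [mem_symmDiff] at h4
        rcases h4 with h4 | h4
        · exact h4.2 (hX hf)
        · exact h4.2 hf

theorem pf_StmtBond (h1 : StmtAlg) (h2 : StmtNoCut) : StmtBond := by
  intro V F _ _ T hT
  have hc := (h1 V F T).2.1
  refine ⟨?_, ?_⟩
  · intro S hne hmin
    refine ⟨dc_of_min h1 T hT S hne hmin, dc_of_min h1 T hT Sᶜ ?_ ?_⟩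
    · rw [hc]
      exact hne
    · rw [hc]
      exact hmin
  · intro S hS
    refine ⟨?_, ?_⟩
    · rw [Finset.nonempty_iff_ne_empty]
      intro h
      rcases hT.dual S h with h3 | h3
      · exact hS.1.1.ne_empty h3
      · have := hS.2.1.ne_empty
        rw [h3, compl_univ] at this
        exact this rfl
    · intro Z hZ hZe
      obtain ⟨X, hX⟩ := hT.span Z (fun e he => by
        have := hZ he
        rw [Tri.bdry, mem_filter] at this
        exact this.2.1) hZe
      have hdis := (h1 V F T).2.2.2.2.2.1
      have c1 : S ⊆ X ∨ Disjoint S X := by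
        apply h2 V F T S X hS.1
        intro e he hi
        rw [hX] at he
        exact Finset.disjoint_left.1 (hdis S) (hZ he) hi
      have c2 : Sᶜ ⊆ X ∨ Disjoint Sᶜ X := by
        apply h2 V F T Sᶜ X hS.2
        intro e he hi
        rw [hX] at he
        have h3 := hdis Sᶜ
        rw [hc] at h3
        exact Finset.disjoint_left.1 h3 (hZ he) hi
      rcases c1 with c1 | c1 <;> rcases c2 with c2 | c2
      · left
        have : X = univ := by
          rw [Finset.eq_univ_iff_forall]
          intro f
          by_cases hf : f ∈ S
          · exact c1 hf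
          · exact c2 (mem_compl.2 hf)
        rw [← hX, this, bdry_univ h1]
      · right
        have : X = S := by
          apply Finset.Subset.antisymm _ c1
          intro f hf
          by_contra h3
          exact Finset.disjoint_left.1 c2 (mem_compl.2 h3) hf
        rw [← hX, this]
      · right
        have : X = Sᶜ := by
          apply Finset.Subset.antisymm _ c2
          intro f hf
          rw [mem_compl]
          intro h3
          exact Finset.disjoint_left.1 c1 h3 hf
        rw [← hX, this, hc]
      · left
        have : X = ∅ := by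
          rw [Finset.eq_empty_iff_forall_notMem]
          intro f hf
          by_cases h3 : f ∈ S
          · exact Finset.disjoint_left.1 c1 h3 hf
          · exact Finset.disjoint_left.1 c2 (mem_compl.2 h3) hf
        rw [← hX, this, bdry_empty]

end Pool.Agent.Helper90.FF
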