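import Pool.Agent.Helper34.FF.Goals1

/-!
# Symmetric differences of even sets; parity of the degrees in a path
-/

namespace Pool.Agent.Helper90.FF

open Finset Pool.Agent.Helper34.FF
open scoped symmDiff Classical

theorem card_symmDiff_add {α : Type} [DecidableEq α] (A B : Finset α) :
    (A ∆ B).card + 2 * (A ∩ B).card = A.card + B.card := by
  have h1 : (A ∆ B).card = (A \ B).card + (B \ A).card := by
    rw [symmDiff_def, sup_eq_union, card_union_of_disjoint]
    rw [Finset.disjoint_left]
    intro x hx hx'
    rw [mem_sdiff] at hx hx'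
    exact hx.2 hx'.1
  have h2 : (A \ B).card + (A ∩ B).card = A.card := card_sdiff_add_card_inter A B
  have h3 : (B \ A).card + (B ∩ A).card = B.card := card_sdiff_add_card_inter B A
  rw [inter_comm B A] at h3
  omega

theorem wE_succ {V : Type} (k : ℕ) (a : ℕ → V) :
    wE (k + 1) a = insert s(a k, a (k + 1)) (wE k a) := by
  unfold wE
  rw [range_add_one, image_insert]

theorem notMem_wE {V : Type} (k : ℕ) (a : ℕ → V) (h : Inj (k + 1) a) :
    s(a k, a (k + 1)) ∉ wE k a := by
  unfold wE
  rw [mem_image]
  rintro ⟨i, hi, he⟩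
  rw [mem_range] at hi
  rw [Sym2.eq_iff] at he
  rcases he with ⟨h1, _⟩ | ⟨h1, h2⟩
  · have := h i (by omega) k (by omega) h1
    omega
  · have := h i (by omega) (k + 1) (by omega) h1
    omega

theorem par_aux {V : Type} (a : ℕ → V) : ∀ k, Inj k a → (wE k a).card = k ∧
    ∀ v, Odd ((wE k a).filter fun e => v ∈ e).card ↔ (a 0 ≠ a k ∧ (v = a 0 ∨ v = a k)) := by
  intro k
  induction k with
  | zero =>
    intro _
    refine ⟨by simp [wE], fun v => ?_⟩
    simp [wE]
  | succ k ih =>
    intro h
    have hk : Inj k a := fun i hi j hj hij => h i (by omega) j (by omega) hij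
    obtain ⟨h1, h2⟩ := ih hk
    have hn := notMem_wE k a h
    refine ⟨by rw [wE_succ, card_insert_of_notMem hn, h1], fun v => ?_⟩
    rw [wE_succ, filter_insert]
    have h0k : a 0 ≠ a (k + 1) := fun h3 => by
      have := h 0 (by omega) (k + 1) le_rfl h3
      omega
    have hkk : a k ≠ a (k + 1) := fun h3 => by
      have := h k (by omega) (k + 1) le_rfl h3
      omega
    have hk0 : a 0 = a k → k = 0 := fun h3 => (h 0 (by omega) k (by omega) h3).symm
    by_cases hv : v ∈ s(a k, a (k + 1))
    · rw [if_pos hv, card_insert_of_notMem (fun h3 => hn (mem_filter.1 h3).1), Nat.odd_add_one,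
        h2 v]
      rw [Sym2.mem_iff] at hv
      rcases hv with rfl | rfl
      · by_cases hk1 : k = 0
        · subst hk1
          simp [h0k]
        · have h3 : a 0 ≠ a k := fun h4 => hk1 (hk0 h4)
          constructor
          · intro h4
            exact absurd ⟨h3, Or.inr rfl⟩ h4
          · rintro ⟨_, h5 | h5⟩
            · exact absurd h5.symm h3
            · exact absurd h5 hkk
      · constructor
        · intro _
          exact ⟨h0k, Or.inr rfl⟩
        · rintro _ ⟨_, h5 | h5⟩
          · exact h0k h5.symm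
          · exact hkk h5.symm
    · rw [if_neg hv, h2 v]
      rw [Sym2.mem_iff, not_or] at hv
      constructor
      · rintro ⟨_, h5 | h5⟩
        · exact ⟨h0k, Or.inl h5⟩
        · exact absurd h5 hv.1
      · rintro ⟨_, h5 | h5⟩
        · refine ⟨fun h6 => ?_, Or.inl h5⟩
          exact hv.1 (h5.trans h6)
        · exact absurd h5 hv.2

theorem pf_StmtPar : StmtPar := by
  intro V G
  refine ⟨?_, ?_⟩
  · intro Z Z' h h' v
    have e : (Z ∆ Z').filter (fun e => v ∈ e) =
        (Z.filter fun e => v ∈ e) ∆ (Z'.filter fun e => v ∈ e) := by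
      ext e
      simp only [mem_filter, mem_symmDiff]
      tauto
    rw [e]
    have h1 := card_symmDiff_add (Z.filter fun e => v ∈ e) (Z'.filter fun e => v ∈ e)
    have h2 := h v
    have h3 := h' v
    rw [Nat.even_iff] at h2 h3 ⊢
    omega
  · intro k a x y hw hi
    obtain ⟨rfl, rfl, _⟩ := hw
    exact par_aux a k hi

end Pool.Agent.Helper90.FF
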