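import Pool.Agent.Helper1.FF2.Goals2

/-!
# Breadth first search trees exist
-/

namespace Pool.Agent.Helper90.FF

open Finset Pool.Agent.Helper1.FF2
open Pool.Agent.Helper34.FF hiding StmtG
open scoped Classical

section

variable {V : Type} (H : SimpleGraph V) (u : V)

theorem exists_parent {x : V} (hx : H.Reachable u x) (h0 : H.dist u x ≠ 0) :
    ∃ y, H.Adj y x ∧ H.Reachable u y ∧ H.dist u y + 1 = H.dist u x := by
  obtain ⟨p, hp⟩ := hx.exists_walk_length_eq_dist
  have hn : ¬ p.Nil := by
    intro h
    have := SimpleGraph.Walk.length_eq_zero_iff.2 h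
    omega
  have hadj := p.adj_penultimate hn
  have hr : H.Reachable u p.penultimate := ⟨p.dropLast⟩
  refine ⟨p.penultimate, hadj, hr, ?_⟩
  have h1 : H.dist u p.penultimate ≤ p.length - 1 := by
    have := SimpleGraph.dist_le p.dropLast
    rwa [SimpleGraph.Walk.length_dropLast] at this
  obtain ⟨q, hq⟩ := hr.exists_walk_length_eq_dist
  have h2 : H.dist u x ≤ q.length + 1 := by
    have := SimpleGraph.dist_le (q.concat hadj)
    rwa [SimpleGraph.Walk.length_concat] at this
  omega

/-- The parent in the breadth first search tree. -/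
noncomputable def par (x : V) : V :=
  if h : ∃ y, H.Adj y x ∧ H.Reachable u y ∧ H.dist u y + 1 = H.dist u x then h.choose else x

theorem par_spec {x : V} (hx : H.Reachable u x) (h0 : H.dist u x ≠ 0) :
    H.Adj (par H u x) x ∧ H.Reachable u (par H u x) ∧
      H.dist u (par H u x) + 1 = H.dist u x := by
  have h := exists_parent H u hx h0
  unfold par
  rw [dif_pos h]
  exact h.choose_spec

theorem par_iter : ∀ (k : ℕ) (x : V), H.Reachable u x → k ≤ H.dist u x →
    H.Reachable u ((par H u)^[k] x) ∧ H.dist u ((par H u)^[k] x) = H.dist u x - k := by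
  intro k
  induction k with
  | zero => intro x hx _; exact ⟨hx, rfl⟩
  | succ k ih =>
    intro x hx hk
    obtain ⟨h1, h2⟩ := ih x hx (by omega)
    rw [Function.iterate_succ_apply']
    obtain ⟨_, h4, h5⟩ := par_spec H u h1 (by omega)
    exact ⟨h4, by omega⟩

end

theorem pf_StmtTree : StmtTree := by
  intro V _ H u
  refine ⟨fun x j => (par H u)^[H.dist u x - j] x, ?_, ?_, ?_⟩
  · intro x hx
    refine ⟨?_, ?_, ?_⟩
    · obtain ⟨h1, h2⟩ := par_iter H u (H.dist u x) x hx le_rfl
      have h3 : H.dist u ((par H u)^[H.dist u x] x) = 0 := by omega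
      exact (h1.dist_eq_zero_iff.1 h3).symm
    · simp
    · intro i hi
      obtain ⟨h1, h2⟩ := par_iter H u (H.dist u x - (i + 1)) x hx (by omega)
      have h3 := (par_spec H u h1 (by omega)).1
      rw [← Function.iterate_succ_apply' (par H u)] at h3
      have h4 : (H.dist u x - (i + 1)).succ = H.dist u x - i := by omega
      rw [h4] at h3
      exact h3
  · intro x hx j hj
    obtain ⟨_, h2⟩ := par_iter H u (H.dist u x - j) x hx (by omega)
    show H.dist u ((par H u)^[H.dist u x - j] x) = j
    omega
  · intro x y _ _ j hjx hjy he i hi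
    have h1 : H.dist u x - i = (j - i) + (H.dist u x - j) := by omega
    have h2 : H.dist u y - i = (j - i) + (H.dist u y - j) := by omega
    show (par H u)^[H.dist u x - i] x = (par H u)^[H.dist u y - i] y
    rw [h1, h2, Function.iterate_add_apply, Function.iterate_add_apply]
    have he' : (par H u)^[H.dist u x - j] x = (par H u)^[H.dist u y - j] y := he
    rw [he']

end Pool.Agent.Helper90.FF
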